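import Pool.Agent.TH997.US.Stm

set_option autoImplicit false

/-!
# Universal Skolem sets of density one: part A6 (helper3)
-/

namespace Pool.Agent.Helper3K.US

open Polynomial Finset Pool.Agent.H692R2.USS Pool.Agent.TH997.US
open scoped Classical

/-- the thresholds of the blocks -/
def bet (Lf : ℕ → ℕ) : ℕ → ℕ
  | 0 => 0
  | j + 1 => bet Lf j + Lf (bet Lf j) + 1

theorem bet_mono (Lf : ℕ → ℕ) : Monotone (bet Lf) :=
  monotone_nat_of_le_succ fun j => by
    change bet Lf j ≤ bet Lf j + Lf (bet Lf j) + 1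
    omega

theorem bet_L (Lf : ℕ → ℕ) {j k : ℕ} (h : j < k) : Lf (bet Lf j) + 1 ≤ bet Lf k := by
  have h1 : bet Lf (j + 1) ≤ bet Lf k := bet_mono Lf h
  change bet Lf j + Lf (bet Lf j) + 1 ≤ bet Lf k at h1
  omega

theorem t_A6 : A6 := by
  intro hBlock hNonGen k ε hε
  rcases Nat.eq_zero_or_pos k with hk | hk
  · subst hk
    refine ⟨0, fun i _ => ?_⟩
    have h0 : (Finset.range i.factorial).filter (fun n => ¬ Good i 0 n) = ∅ := by
      rw [Finset.filter_eq_empty_iff]
      intro n _
      push Not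
      exact ⟨∅, Nat.zero_le _, fun b hb => absurd hb (Finset.notMem_empty b)⟩
    rw [h0, Finset.card_empty, Nat.cast_zero]
    positivity
  have hε' : 0 < ε / ((k : ℝ) + 1) := by positivity
  obtain ⟨x, hx⟩ := hNonGen k hk _ hε'
  choose Lf hLf using fun β : ℕ => hBlock k hk β x _ hε'
  refine ⟨2 ^ bet Lf k, fun i hi => ?_⟩
  have hM : 0 < i.factorial := Nat.factorial_pos i
  -- divisibility
  have hdiv : ∀ p : ℕ, p.Prime → p ≤ i → p * (p - 1) ∣ i.factorial := by
    intro p hp hpi
    obtain ⟨r, rfl⟩ : ∃ r, p = r + 2 := ⟨p - 2, by have := hp.two_le; omega⟩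
    have h1 : (r + 2) * (r + 2 - 1) ∣ (r + 2).factorial := by
      rw [Nat.factorial_succ, Nat.factorial_succ]
      exact ⟨r.factorial, by rw [show r + 2 - 1 = r + 1 from rfl]; ring⟩
    exact h1.trans (Nat.factorial_dvd_factorial hpi)
  have hpow : ∀ j < k, 2 ^ Lf (bet Lf j) ≤ i := fun j hj =>
    (Nat.pow_le_pow_right (by norm_num) (by have := bet_L Lf hj; omega)).trans hi
  -- the exceptional sets
  set P : ℕ → ℕ → Prop := fun j n => ∀ p, p.Prime → SplitAll k p → x ≤ p → p < 2 ^ Lf (bet Lf j) →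
    ¬ (bet Lf j ≤ n % (p - 1) ∧ 4 * k * (k + 1) * (n % (p - 1) + 1) ≤ Nat.log 2 p) with hPd
  set Q : ℕ → Prop := fun n => ∃ p, p.Prime ∧ x ≤ p ∧ p < 2 ^ bet Lf k ∧
    4 * k * (k + 1) * (n % (p - 1) + 1) ≤ Nat.log 2 p ∧ ¬ Generic k p n with hQd
  have h1 : ∀ j < k, (((Finset.range i.factorial).filter (P j)).card : ℝ) ≤
      ε / ((k : ℝ) + 1) * (i.factorial : ℕ) := fun j hj =>
    hLf (bet Lf j) i.factorial hM fun p hp hpL =>
      (Dvd.intro_left p rfl).trans (hdiv p hp (hpL.le.trans (hpow j hj)))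
  have h2 : (((Finset.range i.factorial).filter Q).card : ℝ) ≤
      ε / ((k : ℝ) + 1) * (i.factorial : ℕ) :=
    hx (bet Lf k) i.factorial hM fun p hp hpL => hdiv p hp (hpL.le.trans hi)
  -- the inclusion
  have hsub : (Finset.range i.factorial).filter (fun n => ¬ Good i k n) ⊆
      ((Finset.range k).biUnion fun j => (Finset.range i.factorial).filter (P j)) ∪
        (Finset.range i.factorial).filter Q := by
    intro n hn
    rw [Finset.mem_filter] at hn
    by_contra hcon
    rw [Finset.mem_union, Finset.mem_biUnion, Finset.mem_filter, not_or] at hcon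
    obtain ⟨hc1, hc2⟩ := hcon
    have hQ : ¬ Q n := fun h => hc2 ⟨hn.1, h⟩
    have hP : ∀ j < k, ¬ P j n := fun j hj h =>
      hc1 ⟨j, Finset.mem_range.2 hj, Finset.mem_filter.2 ⟨hn.1, h⟩⟩
    apply hn.2
    have hex : ∀ j : Fin k, ∃ p, p.Prime ∧ SplitAll k p ∧ x ≤ p ∧ p < 2 ^ Lf (bet Lf j) ∧
        bet Lf j ≤ n % (p - 1) ∧ 4 * k * (k + 1) * (n % (p - 1) + 1) ≤ Nat.log 2 p := by
      intro j
      have := hP j j.2
      rw [hPd] at this
      push Not at this
      obtain ⟨p, q1, q2, q3, q4, q5, q6⟩ := this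
      exact ⟨p, q1, q2, q3, q4, q5, q6⟩
    choose p q1 q2 q3 q4 q5 q6 using hex
    have hlt : ∀ j : Fin k, n % (p j - 1) < bet Lf (j + 1) := by
      intro j
      have e1 : Nat.log 2 (p j) < Lf (bet Lf j) := Nat.log_lt_of_lt_pow (q1 j).ne_zero (q4 j)
      have e2 : n % (p j - 1) + 1 ≤ 4 * k * (k + 1) * (n % (p j - 1) + 1) :=
        Nat.le_mul_of_pos_left _ (by positivity)
      have e3 := q6 j
      have e4 := bet_L Lf (Nat.lt_succ_self (j : ℕ))
      have e5 : bet Lf ((j : ℕ) + 1) = bet Lf (j : ℕ).succ := rfl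
      rw [e5]
      omega
    have hmono : StrictMono fun j : Fin k => n % (p j - 1) := by
      intro a b hab
      have e1 : bet Lf ((a : ℕ) + 1) ≤ bet Lf (b : ℕ) := bet_mono Lf (by
        have : (a : ℕ) < b := hab
        omega)
      exact (hlt a).trans_le (e1.trans (q5 b))
    refine ⟨Finset.univ.image fun j : Fin k => n % (p j - 1), ?_, ?_⟩
    · rw [Finset.card_image_of_injective _ hmono.injective, Finset.card_univ, Fintype.card_fin]
    · intro b hb
      obtain ⟨j, -, rfl⟩ := Finset.mem_image.1 hb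
      refine ⟨p j, (q4 j).le.trans (hpow j j.2), q1 j, q2 j, q6 j, Nat.mod_modEq _ _, ?_⟩
      by_contra hg
      refine hQ ⟨p j, q1 j, q3 j, (q4 j).trans_le (Nat.pow_le_pow_right (by norm_num) ?_), q6 j, hg⟩
      have := bet_L Lf j.2
      omega
  have h3 : (((Finset.range i.factorial).filter (fun n => ¬ Good i k n)).card : ℝ) ≤
      (((Finset.range k).biUnion fun j => (Finset.range i.factorial).filter (P j)).card : ℝ) +
        (((Finset.range i.factorial).filter Q).card : ℝ) := by
    have := (Finset.card_le_card hsub).trans (Finset.card_union_le _ _)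
    exact_mod_cast this
  have h4 : (((Finset.range k).biUnion fun j => (Finset.range i.factorial).filter (P j)).card : ℝ) ≤
      ∑ j ∈ Finset.range k, (((Finset.range i.factorial).filter (P j)).card : ℝ) := by
    have := Finset.card_biUnion_le (s := Finset.range k)
      (t := fun j => (Finset.range i.factorial).filter (P j))
    exact_mod_cast this
  have h5 : ∑ j ∈ Finset.range k, (((Finset.range i.factorial).filter (P j)).card : ℝ) ≤
      k * (ε / ((k : ℝ) + 1) * (i.factorial : ℕ)) := by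
    refine (Finset.sum_le_sum fun j hj => h1 j (Finset.mem_range.1 hj)).trans ?_
    rw [Finset.sum_const, Finset.card_range, nsmul_eq_mul]
  have h6 : (k : ℝ) * (ε / ((k : ℝ) + 1) * (i.factorial : ℕ)) +
      ε / ((k : ℝ) + 1) * (i.factorial : ℕ) = ε * (i.factorial : ℕ) := by
    have : ((k : ℝ) + 1) ≠ 0 := by positivity
    field_simp
  linarith

end Pool.Agent.Helper3K.US
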